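import Mathlib

namespace Pool.Agent.Results.MP_b59edb_co.Lower

open Finset

/-- `B` is the block set of a Steiner system `S(t,k,v)` on the point set `Fin v`. -/
def IsSteiner (t k : ℕ) {v : ℕ} (B : Finset (Finset (Fin v))) : Prop :=
  (∀ b ∈ B, b.card = k) ∧ ∀ T : Finset (Fin v), T.card = t → ∃! b, b ∈ B ∧ T ⊆ b

/-- No block is rainbow. -/
def Proper {v : ℕ} (B : Finset (Finset (Fin v))) (φ : Fin v → ℕ) : Prop :=
  ∀ b ∈ B, ∃ x ∈ b, ∃ y ∈ b, x ≠ y ∧ φ x = φ y

/-- The upper chromatic number: the largest number of colours used by a proper colouring. -/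
noncomputable def upperChi {v : ℕ} (B : Finset (Finset (Fin v))) : ℕ :=
  sSup {n | ∃ φ : Fin v → ℕ, Proper B φ ∧ (Finset.univ.image φ).card = n}

lemma bdd {v : ℕ} (B : Finset (Finset (Fin v))) :
    BddAbove {n | ∃ φ : Fin v → ℕ, Proper B φ ∧ (Finset.univ.image φ).card = n} := by
  refine ⟨v, ?_⟩
  rintro n ⟨φ, -, rfl⟩
  simpa using Finset.card_image_le (s := (Finset.univ : Finset (Fin v))) (f := φ)

lemma cnt {v q : ℕ} (T : Finset (Fin v)) :
    (Finset.univ.filter (fun f : Fin v → Fin (q + 1) => ∀ x ∈ T, f x = 0)).card *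
      (q + 1) ^ T.card = (q + 1) ^ v := by
  classical
  have e : Finset.univ.filter (fun f : Fin v → Fin (q + 1) => ∀ x ∈ T, f x = 0) =
      Fintype.piFinset (fun x => if x ∈ T then ({0} : Finset (Fin (q + 1))) else Finset.univ) := by
    ext f
    simp only [Finset.mem_filter, Finset.mem_univ, true_and, Fintype.mem_piFinset]
    constructor
    · intro h x
      by_cases hx : x ∈ T
      · simp [hx, h x hx]
      · simp [hx]
    · intro h x hx
      have := h x
      simpa [hx] using this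
  rw [e, Fintype.card_piFinset]
  have e2 : ∀ x : Fin v, (if x ∈ T then ({0} : Finset (Fin (q + 1))) else Finset.univ).card *
      (if x ∈ T then q + 1 else 1) = q + 1 := by
    intro x
    by_cases hx : x ∈ T <;> simp [hx]
  have e3 : ∏ x : Fin v, (if x ∈ T then q + 1 else 1) = (q + 1) ^ T.card := by
    rw [Finset.prod_ite_mem, Finset.univ_inter, Finset.prod_const]
  rw [← e3, ← Finset.prod_mul_distrib, Finset.prod_congr rfl (fun x _ => e2 x)]
  simp

lemma indep_le {k v : ℕ} (B : Finset (Finset (Fin v))) (hk : 2 ≤ k) (hB : ∀ b ∈ B, b.card = k)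
    (I : Finset (Fin v)) (hI : ∀ b ∈ B, ∀ T ∈ Finset.powersetCard (k - 1) b, ¬ T ⊆ I) :
    I.card ≤ upperChi B := by
  classical
  obtain ⟨φ, hφ⟩ : ∃ φ : Fin v → ℕ, ∀ x, φ x = if x ∈ I then x.val + 1 else 0 :=
    ⟨_, fun _ => rfl⟩
  have hp : Proper B φ := by
    intro b hb
    have h1 : (b ∩ I).card < k - 1 := by
      by_contra h
      obtain ⟨T, hT1, hT2⟩ := Finset.exists_subset_card_eq (not_lt.1 h)
      exact hI b hb T (Finset.mem_powersetCard.2 ⟨hT1.trans Finset.inter_subset_left, hT2⟩)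
        (hT1.trans Finset.inter_subset_right)
    have h2 := Finset.card_sdiff_add_card_inter b I
    have h3 := hB b hb
    obtain ⟨x, hx, y, hy, hxy⟩ := Finset.one_lt_card.1 (by omega : 1 < (b \ I).card)
    rw [Finset.mem_sdiff] at hx hy
    exact ⟨x, hx.1, y, hy.1, hxy, by rw [hφ, hφ, if_neg hx.2, if_neg hy.2]⟩
  refine le_trans ?_ (le_csSup (bdd B) ⟨φ, hp, rfl⟩)
  refine Finset.card_le_card_of_injOn φ (fun x _ => ?_) (fun x hx y hy hxy => ?_)
  · exact Finset.mem_coe.2 (Finset.mem_image_of_mem _ (Finset.mem_univ x))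
  · rw [hφ, hφ, if_pos (Finset.mem_coe.1 hx), if_pos (Finset.mem_coe.1 hy)] at hxy
    exact Fin.ext (by omega)

lemma blocks_le {t k v : ℕ} (B : Finset (Finset (Fin v))) (htk : t ≤ k) (hB : IsSteiner t k B) :
    B.card ≤ v ^ t := by
  classical
  have hex : ∀ b : Finset (Fin v), ∃ T : Finset (Fin v), b ∈ B → T ⊆ b ∧ T.card = t := by
    intro b
    by_cases hb : b ∈ B
    · obtain ⟨T, h1, h2⟩ := Finset.exists_subset_card_eq (s := b) (n := t)
        (by rw [hB.1 b hb]; exact htk)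
      exact ⟨T, fun _ => ⟨h1, h2⟩⟩
    · exact ⟨∅, fun h => absurd h hb⟩
  choose g hg using hex
  have h1 : B.card ≤ (Finset.powersetCard t (Finset.univ : Finset (Fin v))).card := by
    refine Finset.card_le_card_of_injOn g (fun b hb => ?_) (fun b hb c hc hbc => ?_)
    · exact Finset.mem_coe.2 (Finset.mem_powersetCard.2
        ⟨Finset.subset_univ _, (hg b (Finset.mem_coe.1 hb)).2⟩)
    · have hb' := Finset.mem_coe.1 hb
      have hc' := Finset.mem_coe.1 hc
      exact (hB.2 (g b) (hg b hb').2).unique ⟨hb', (hg b hb').1⟩ ⟨hc', hbc ▸ (hg c hc').1⟩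
  rw [Finset.card_powersetCard, Finset.card_univ, Fintype.card_fin] at h1
  exact h1.trans (Nat.choose_le_pow _ _)

lemma average {t j v q : ℕ} (B : Finset (Finset (Fin v))) (htk : t ≤ j + 2)
    (hB : IsSteiner t (j + 2) B) :
    v * (q + 1) ^ j ≤ upperChi B * (q + 1) ^ (j + 1) + (j + 2) * v ^ t := by
  classical
  obtain ⟨H, hH⟩ : ∃ H : Finset (Finset (Fin v)),
      H = B.biUnion (fun b => Finset.powersetCard (j + 1) b) := ⟨_, rfl⟩
  have hHc : H.card ≤ (j + 2) * v ^ t := by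
    rw [hH]
    refine (Finset.card_biUnion_le_card_mul _ _ (j + 2) (fun b hb => ?_)).trans ?_
    · rw [Finset.card_powersetCard, hB.1 b hb, Nat.choose_succ_self_right]
    · rw [mul_comm]
      exact Nat.mul_le_mul_left _ (blocks_le B htk hB)
  have hHs : ∀ T ∈ H, T.card = j + 1 := by
    intro T hT
    rw [hH, Finset.mem_biUnion] at hT
    obtain ⟨b, -, hb⟩ := hT
    exact (Finset.mem_powersetCard.1 hb).2
  have hex : ∀ T : Finset (Fin v), T ∈ H → ∃ x, x ∈ T := by
    intro T hT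
    exact Finset.card_pos.1 (by rw [hHs T hT]; omega)
  have hone : ∀ f : Fin v → Fin (q + 1),
      (Finset.univ.filter (fun x => f x = 0)).card ≤
        upperChi B + (H.filter (fun T => ∀ x ∈ T, f x = 0)).card := by
    intro f
    rcases Nat.eq_zero_or_pos v with hv | hv
    · subst hv; simp
    have hex' : ∀ T : Finset (Fin v), ∃ x, T ∈ H → x ∈ T := by
      intro T
      by_cases hT : T ∈ H
      · obtain ⟨x, hx⟩ := hex T hT
        exact ⟨x, fun _ => hx⟩
      · exact ⟨⟨0, hv⟩, fun h => absurd h hT⟩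
    choose pt hpt using hex'
    have h1 := indep_le B (k := j + 2) (by omega) hB.1
      ((Finset.univ.filter (fun x => f x = 0)) \
        (H.filter (fun T => ∀ x ∈ T, f x = 0)).image pt) (by
        intro b hb T hT hsub
        have hTH : T ∈ H := by
          rw [hH]
          exact Finset.mem_biUnion.2 ⟨b, hb, hT⟩
        have h2 := Finset.mem_sdiff.1 (hsub (hpt T hTH))
        refine h2.2 (Finset.mem_image_of_mem _ (Finset.mem_filter.2 ⟨hTH, fun x hx => ?_⟩))
        exact (Finset.mem_filter.1 (Finset.mem_sdiff.1 (hsub hx)).1).2)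
    have h2 := Finset.le_card_sdiff ((H.filter (fun T => ∀ x ∈ T, f x = 0)).image pt)
      (Finset.univ.filter (fun x => f x = 0))
    have h3 := Finset.card_image_le (s := H.filter (fun T => ∀ x ∈ T, f x = 0)) (f := pt)
    omega
  have s1 : (∑ f : Fin v → Fin (q + 1), (Finset.univ.filter (fun x => f x = 0)).card) * (q + 1)
      = v * (q + 1) ^ v := by
    simp only [Finset.card_filter]
    rw [Finset.sum_comm, Finset.sum_mul]
    have : ∀ x : Fin v, (∑ f : Fin v → Fin (q + 1), if f x = 0 then 1 else 0) * (q + 1) =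
        (q + 1) ^ v := by
      intro x
      have h := cnt (q := q) ({x} : Finset (Fin v))
      simp only [Finset.mem_singleton, forall_eq, Finset.card_singleton, pow_one] at h
      rw [← h, Finset.card_filter]
    rw [Finset.sum_congr rfl (fun x _ => this x)]
    simp
  have s2 : (∑ f : Fin v → Fin (q + 1), (H.filter (fun T => ∀ x ∈ T, f x = 0)).card) *
      (q + 1) ^ (j + 1) = H.card * (q + 1) ^ v := by
    simp only [Finset.card_filter]
    rw [Finset.sum_comm, Finset.sum_mul]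
    have : ∀ T ∈ H, (∑ f : Fin v → Fin (q + 1), if ∀ x ∈ T, f x = 0 then 1 else 0) *
        (q + 1) ^ (j + 1) = (q + 1) ^ v := by
      intro T hT
      have h := cnt (q := q) T
      rw [hHs T hT, Finset.card_filter] at h
      exact h
    rw [Finset.sum_congr rfl this]
    simp
  have s3 := Finset.sum_le_sum (fun f (_ : f ∈ (Finset.univ : Finset (Fin v → Fin (q + 1)))) =>
    hone f)
  rw [Finset.sum_add_distrib, Finset.sum_const, Finset.card_univ, Fintype.card_fun,
    Fintype.card_fin, Fintype.card_fin, smul_eq_mul] at s3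
  have s4 := Nat.mul_le_mul_right ((q + 1) ^ (j + 1)) s3
  rw [add_mul, s2, pow_succ' (q + 1) j, ← mul_assoc, s1] at s4
  have hpos : 0 < (q + 1) ^ v := by positivity
  refine Nat.le_of_mul_le_mul_left ?_ hpos
  have s5 := Nat.mul_le_mul_right ((q + 1) ^ v) hHc
  rw [pow_succ' (q + 1) j]
  nlinarith

theorem result (t k : ℕ) (ht : 2 ≤ t) (hk : t + 2 ≤ k) :
    ∃ C : ℝ, 0 < C ∧ ∀ (v : ℕ) (B : Finset (Finset (Fin v))), IsSteiner t k B →
      C * (v : ℝ) ^ (((k : ℝ) - t - 1) / ((k : ℝ) - 2)) ≤ (upperChi B : ℝ) := by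
  obtain ⟨j, rfl⟩ : ∃ j, k = j + 2 := ⟨k - 2, by omega⟩
  obtain ⟨s, rfl⟩ : ∃ s, t = s + 1 := ⟨t - 1, by omega⟩
  have hj : 0 < j := by omega
  have hj0 : (0 : ℝ) < j := by exact_mod_cast hj
  have hexp : (((j + 2 : ℕ) : ℝ) - ((s + 1 : ℕ) : ℝ) - 1) / (((j + 2 : ℕ) : ℝ) - 2) =
      1 - (s : ℝ) / j := by
    push_cast
    rw [show (j : ℝ) + 2 - 2 = j by ring]
    field_simp
    ring
  rw [hexp]
  refine ⟨1 / (4 * (2 * ((j : ℝ) + 2)) ^ ((j : ℝ)⁻¹)), by positivity, fun v B hB => ?_⟩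
  rcases Nat.eq_zero_or_pos v with hv | hv
  · subst hv
    have : (1 - (s : ℝ) / j) ≠ 0 := by
      have h1 : (s : ℝ) < j := by exact_mod_cast (by omega : s < j)
      have h2 : (s : ℝ) / j < 1 := (div_lt_one hj0).2 h1
      linarith
    rw [Nat.cast_zero, Real.zero_rpow this, mul_zero]
    positivity
  have hv0 : (0 : ℝ) < v := by exact_mod_cast hv
  have hv1 : (1 : ℝ) ≤ v := by exact_mod_cast hv
  obtain ⟨a, ha⟩ : ∃ a : ℝ, a = (2 * ((j : ℝ) + 2) * (v : ℝ) ^ s) ^ ((j : ℝ)⁻¹) := ⟨_, rfl⟩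
  have hb1 : (1 : ℝ) ≤ 2 * ((j : ℝ) + 2) * (v : ℝ) ^ s := by
    have : (1 : ℝ) ≤ (v : ℝ) ^ s := one_le_pow₀ hv1
    nlinarith
  have ha1 : 1 ≤ a := by rw [ha]; exact Real.one_le_rpow hb1 (by positivity)
  have haj : a ^ j = 2 * ((j : ℝ) + 2) * (v : ℝ) ^ s := by
    rw [ha]; exact Real.rpow_inv_natCast_pow (by positivity) (by omega)
  have ha2 : a = (2 * ((j : ℝ) + 2)) ^ ((j : ℝ)⁻¹) * (v : ℝ) ^ ((s : ℝ) / j) := by
    rw [ha, Real.mul_rpow (by positivity) (by positivity), div_eq_mul_inv,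
      Real.rpow_mul hv0.le, Real.rpow_natCast]
  obtain ⟨q, hq⟩ : ∃ q : ℕ, q = ⌊a⌋₊ := ⟨_, rfl⟩
  have hq1 : a < (q : ℝ) + 1 := by rw [hq]; exact Nat.lt_floor_add_one a
  have hq2 : (q : ℝ) ≤ a := by rw [hq]; exact Nat.floor_le (by linarith)
  have h1 := average (q := q) B (by omega) hB
  have h2 : (v : ℝ) * ((q : ℝ) + 1) ^ j ≤ (upperChi B : ℝ) * ((q : ℝ) + 1) ^ (j + 1) +
      ((j : ℝ) + 2) * (v : ℝ) ^ (s + 1) := by exact_mod_cast h1
  have h3 : 2 * ((j : ℝ) + 2) * (v : ℝ) ^ s ≤ ((q : ℝ) + 1) ^ j := by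
    rw [← haj]; exact pow_le_pow_left₀ (by linarith) hq1.le _
  have hQ : (0 : ℝ) < ((q : ℝ) + 1) ^ j := by positivity
  have h4 : (v : ℝ) ≤ 2 * (upperChi B : ℝ) * ((q : ℝ) + 1) := by
    refine le_of_mul_le_mul_right ?_ hQ
    have h5 := mul_le_mul_of_nonneg_left h3 hv0.le
    rw [pow_succ, pow_succ] at h2
    nlinarith
  have hc0 : (0 : ℝ) ≤ (upperChi B : ℝ) := by positivity
  have h6 : (v : ℝ) ≤ 4 * a * (upperChi B : ℝ) := by nlinarith
  rw [Real.rpow_sub hv0, Real.rpow_one, one_div, inv_mul_le_iff₀ (by positivity),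
    div_le_iff₀ (by positivity)]
  calc (v : ℝ) ≤ 4 * a * (upperChi B : ℝ) := h6
    _ = _ := by rw [ha2]; ring

end Pool.Agent.Results.MP_b59edb_co.Lower
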